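import Mathlib
import Pool.Agent.K4H34.AL.Comb2

/-!
# Multiplicities of Artin characters in functors on number fields are inductive invariants
-/

set_option autoImplicit false
set_option linter.unusedSectionVars false

namespace Pool.Agent.J4.H58.BSD

open NumberField Pool.Agent.K4H74.ST Pool.Agent.K4H74.SC

/-- a functor from the number fields to the finite-dimensional vector spaces with Galois descent -/
structure GFun where
  /-- the spaces -/
  X : ∀ (L : Type) [Field L] [NumberField L], Type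
  /-- addition -/
  ag : ∀ (L : Type) [Field L] [NumberField L], AddCommGroup (X L)
  /-- scalars -/
  mo : ∀ (L : Type) [Field L] [NumberField L], Module ℂ (X L)
  fd : ∀ (L : Type) [Field L] [NumberField L], FiniteDimensional ℂ (X L)
  /-- the maps -/
  map : ∀ (L N : Type) [Field L] [NumberField L] [Field N] [NumberField N],
    (L →+* N) → X L →ₗ[ℂ] X N
  map_id : ∀ (L : Type) [Field L] [NumberField L], map L L (RingHom.id L) = LinearMap.id
  map_comp : ∀ (L N P : Type) [Field L] [NumberField L] [Field N] [NumberField N] [Field P]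
    [NumberField P] (f : L →+* N) (g : N →+* P), map L P (g.comp f) = map N P g ∘ₗ map L N f
  inj : ∀ (L N : Type) [Field L] [NumberField L] [Field N] [NumberField N] (f : L →+* N),
    Function.Injective (map L N f)
  desc : ∀ (L N : Type) [Field L] [NumberField L] [Field N] [NumberField N] [Algebra L N]
    [IsGalois L N] (b : X N), (∀ h : N ≃ₐ[L] N, map N N (h : N →+* N) b = b) →
      ∃ a, map L N (algebraMap L N) a = b

attribute [instance] GFun.ag GFun.mo GFun.fd

variable (F : GFun)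

/-- the action of the Galois group -/
noncomputable def gact (K : Type) {L : Type} [Field K] [Field L] [NumberField L] [Algebra K L] :
    Representation ℂ (L ≃ₐ[K] L) (F.X L) where
  toFun g := F.map L L (g : L →+* L)
  map_one' := F.map_id L
  map_mul' g h := F.map_comp L L L (h : L →+* L) (g : L →+* L)

lemma gact_apply (K : Type) {L : Type} [Field K] [Field L] [NumberField L] [Algebra K L]
    (g : L ≃ₐ[K] L) : gact F K g = F.map L L (g : L →+* L) := rfl

/-- the multiplicity -/
noncomputable def mul (K : Type) {L : Type} [Field K] [Field L] [NumberField L] [Algebra K L]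
    (χ : (L ≃ₐ[K] L) → ℂ) : ℂ :=
  (Nat.card (L ≃ₐ[K] L) : ℂ)⁻¹ * ∑ᶠ g : L ≃ₐ[K] L,
    χ g * LinearMap.trace ℂ (F.X L) (gact F K g⁻¹)

section tr

variable {K L : Type} [Field K] [NumberField K] [Field L] [NumberField L] [Algebra K L]

lemma mul_add' (χ χ' : (L ≃ₐ[K] L) → ℂ) : mul F K (χ + χ') = mul F K χ + mul F K χ' := by
  have : Fintype (L ≃ₐ[K] L) := Fintype.ofFinite _
  unfold mul
  rw [finsum_eq_sum_of_fintype, finsum_eq_sum_of_fintype, finsum_eq_sum_of_fintype, ← mul_add,
    ← Finset.sum_add_distrib]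
  congr 1
  refine Finset.sum_congr rfl fun g _ => ?_
  rw [Pi.add_apply, add_mul]

/-- the multiplicities are natural numbers -/
lemma mul_nat {χ : (L ≃ₐ[K] L) → ℂ} (h : IsChar χ) : ∃ m : ℕ, mul F K χ = m := by
  obtain ⟨V, _, _, _, ρ, rfl⟩ := h
  have : Fintype (L ≃ₐ[K] L) := Fintype.ofFinite _
  have h1 := trace_homMap ρ (gact F K) LinearMap.id (fun g w => rfl)
  have h2 : homMap ρ (gact F K (L := L)) LinearMap.id (fun g w => rfl) = LinearMap.id := by
    apply LinearMap.ext
    intro f
    rfl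
  rw [h2, LinearMap.trace_id, finsum_eq_sum_of_fintype] at h1
  refine ⟨Module.finrank ℂ (HomG ρ (gact F K (L := L))), ?_⟩
  rw [mul, h1, finsum_eq_sum_of_fintype]
  congr 1
  rw [← Equiv.sum_comp (Equiv.inv (L ≃ₐ[K] L))]
  refine Finset.sum_congr rfl fun g _ => ?_
  change ρ.character g⁻¹ * LinearMap.trace ℂ (F.X L) (gact F K (g⁻¹)⁻¹) = _
  rw [inv_inv]
  rfl

end tr

section ind

variable {K E L : Type} [Field K] [NumberField K] [Field E] [NumberField E] [Field L]
  [NumberField L] [Algebra K E] [Algebra E L] [Algebra K L] [IsScalarTower K E L]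

/-- **induction** -/
theorem mul_ind (χ : (L ≃ₐ[E] L) → ℂ) : mul F K (indChar K E L χ) = mul F E χ := by
  classical
  have : Fintype (L ≃ₐ[K] L) := Fintype.ofFinite _
  have : Fintype (L ≃ₐ[E] L) := Fintype.ofFinite _
  unfold mul
  rw [finsum_eq_sum_of_fintype, finsum_eq_sum_of_fintype]
  have hG : (Nat.card (L ≃ₐ[K] L) : ℂ) ≠ 0 := by exact_mod_cast Nat.card_pos.ne'
  let t : (L ≃ₐ[K] L) → ℂ := fun g => LinearMap.trace ℂ (F.X L) (gact F K g⁻¹)
  have ht : ∀ x g : L ≃ₐ[K] L, t (x * g * x⁻¹) = t g := by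
    intro x g
    change LinearMap.trace ℂ (F.X L) (gact F K (x * g * x⁻¹)⁻¹) = _
    have h1 : gact F K (x * g * x⁻¹)⁻¹
        = gact F K x ∘ₗ (gact F K g⁻¹ ∘ₗ gact F K x⁻¹) := by
      have h2 : (x * g * x⁻¹)⁻¹ = x * (g⁻¹ * x⁻¹) := by group
      rw [h2, map_mul, map_mul]
      rfl
    rw [h1, LinearMap.trace_comp_comm']
    congr 1
    rw [LinearMap.comp_assoc]
    have h3 : gact F K x⁻¹ ∘ₗ gact F K x = LinearMap.id := by
      change gact F K x⁻¹ * gact F K x = _
      rw [← map_mul, inv_mul_cancel, map_one]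
      rfl
    rw [h3, LinearMap.comp_id]
  have h2 : ∀ g : L ≃ₐ[K] L, indChar K E L χ g * t g
      = (Nat.card (L ≃ₐ[E] L) : ℂ)⁻¹ * ∑ x : L ≃ₐ[K] L, ∑ h : L ≃ₐ[E] L,
        (if x * h.restrictScalars K * x⁻¹ = g then χ h * t (h.restrictScalars K) else 0) := by
    intro g
    rw [indChar, finsum_eq_sum_of_fintype, mul_assoc, Finset.sum_mul]
    congr 1
    refine Finset.sum_congr rfl fun x _ => ?_
    rw [finsum_eq_sum_of_fintype, Finset.sum_mul]
    refine Finset.sum_congr rfl fun h _ => ?_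
    by_cases hg : h.restrictScalars K = x⁻¹ * g * x
    · rw [finsum_eq_single _ hg (fun h1 h2 => absurd rfl h2), if_pos (by rw [hg]; group), hg]
      have h3 := ht x⁻¹ g
      rw [inv_inv] at h3
      rw [h3]
    · rw [if_neg (fun h1 => hg (by rw [← h1]; group))]
      have : IsEmpty (h.restrictScalars K = x⁻¹ * g * x) := ⟨hg⟩
      rw [finsum_of_isEmpty, zero_mul]
  change (Nat.card (L ≃ₐ[K] L) : ℂ)⁻¹ * ∑ g, indChar K E L χ g * t g
    = (Nat.card (L ≃ₐ[E] L) : ℂ)⁻¹ * ∑ h : L ≃ₐ[E] L, χ h * t (h.restrictScalars K)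
  rw [Finset.sum_congr rfl (fun g _ => h2 g), ← Finset.mul_sum, Finset.sum_comm]
  have h4 : ∀ x : L ≃ₐ[K] L, ∑ g : L ≃ₐ[K] L, ∑ h : L ≃ₐ[E] L,
      (if x * h.restrictScalars K * x⁻¹ = g then χ h * t (h.restrictScalars K) else 0)
        = ∑ h : L ≃ₐ[E] L, χ h * t (h.restrictScalars K) := by
    intro x
    rw [Finset.sum_comm]
    refine Finset.sum_congr rfl fun h _ => ?_
    rw [Finset.sum_ite_eq Finset.univ, if_pos (Finset.mem_univ _)]
  rw [Finset.sum_congr rfl (fun x _ => h4 x), Finset.sum_const, Finset.card_univ,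
    ← Nat.card_eq_fintype_card, nsmul_eq_mul]
  field_simp

end ind

section infl

variable {K L N : Type} [Field K] [NumberField K] [Field L] [NumberField L] [Field N]
  [NumberField N] [Algebra K L] [Algebra L N] [Algebra K N] [IsScalarTower K L N] [IsGalois K L]
  [IsGalois K N]

lemma gact_pull (g : N ≃ₐ[K] N) (a : F.X L) :
    gact F K g (F.map L N (algebraMap L N) a)
      = F.map L N (algebraMap L N) (gact F K (AlgEquiv.restrictNormalHom L g) a) := by
  rw [gact_apply, gact_apply, ← LinearMap.comp_apply, ← F.map_comp, ← LinearMap.comp_apply,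
    ← F.map_comp]
  congr 2
  ext x
  exact (AlgEquiv.restrictNormal_commutes g L x).symm

/-- **inflation** -/
theorem mul_infl (χ : (L ≃ₐ[K] L) → ℂ) :
    mul F K (fun g : N ≃ₐ[K] N => χ (AlgEquiv.restrictNormalHom L g)) = mul F K χ := by
  classical
  have hft : Fintype (L ≃ₐ[K] L) := Fintype.ofFinite _
  have hft' : Fintype (N ≃ₐ[K] N) := Fintype.ofFinite _
  let π : (N ≃ₐ[K] N) →* (L ≃ₐ[K] L) := AlgEquiv.restrictNormalHom L
  have hπ : Function.Surjective π := AlgEquiv.restrictNormalHom_surjective N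
  have hker : ∀ x : L ≃ₐ[K] L, (Finset.univ.filter fun g => π g = x).card = Nat.card π.ker := by
    intro x
    obtain ⟨y, rfl⟩ := hπ x
    rw [← Fintype.card_subtype, ← Nat.card_eq_fintype_card]
    refine Nat.card_congr
      { toFun := fun g => ⟨g.1 * y⁻¹, by
          rw [MonoidHom.mem_ker, map_mul, map_inv, g.2, mul_inv_cancel]⟩
        invFun := fun h => ⟨h.1 * y, by
          rw [map_mul, (MonoidHom.mem_ker.mp h.2), one_mul]⟩
        left_inv := fun g => Subtype.ext (by simp)
        right_inv := fun h => Subtype.ext (by simp) }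
  have hcard : Nat.card (N ≃ₐ[K] N) = Nat.card π.ker * Nat.card (L ≃ₐ[K] L) := by
    have h1 := π.ker.index_mul_card
    rw [Subgroup.index_ker, MonoidHom.range_eq_top.mpr hπ, Subgroup.card_top] at h1
    rw [← h1, mul_comm]
  have hkc : (Nat.card π.ker : ℂ) ≠ 0 := by exact_mod_cast Nat.card_pos.ne'
  unfold mul
  rw [finsum_eq_sum_of_fintype, finsum_eq_sum_of_fintype, hcard]
  -- the two operators
  let A : F.X N →ₗ[ℂ] F.X N := ∑ g : N ≃ₐ[K] N, χ (π g⁻¹) • gact F K g
  let B : F.X L →ₗ[ℂ] F.X L := ∑ g : L ≃ₐ[K] L, χ g⁻¹ • gact F K g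
  have hAB : ∀ a, A (F.map L N (algebraMap L N) a)
      = (Nat.card π.ker : ℂ) • F.map L N (algebraMap L N) (B a) := by
    intro a
    simp only [A, B, LinearMap.sum_apply, LinearMap.smul_apply, map_sum, map_smul]
    have h1 : ∀ g : N ≃ₐ[K] N, χ (π g⁻¹) • gact F K g (F.map L N (algebraMap L N) a)
        = (fun x : L ≃ₐ[K] L => χ x⁻¹ • F.map L N (algebraMap L N) (gact F K x a)) (π g) := by
      intro g
      change _ = χ (π g)⁻¹ • F.map L N (algebraMap L N) (gact F K (π g) a)
      rw [gact_pull, map_inv]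
    rw [Finset.sum_congr rfl (fun g _ => h1 g), ← Finset.sum_fiberwise (s := Finset.univ)
      (g := fun g : N ≃ₐ[K] N => π g), Finset.smul_sum]
    refine Finset.sum_congr rfl fun x _ => ?_
    rw [← hker x, Nat.cast_smul_eq_nsmul ℂ, ← Finset.sum_const]
    refine Finset.sum_congr rfl fun g hg => ?_
    rw [(Finset.mem_filter.mp hg).2]
  have hLN : IsGalois L N := IsGalois.tower_top_of_isGalois K L N
  have hAinv : ∀ a, ∃ b, F.map L N (algebraMap L N) b = A a := by
    intro a
    refine F.desc L N (A a) fun h => ?_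
    let h' : N ≃ₐ[K] N := h.restrictScalars K
    change gact F K h' (A a) = A a
    simp only [A, LinearMap.sum_apply, LinearMap.smul_apply, map_sum, map_smul]
    conv_rhs => rw [← Equiv.sum_comp (Equiv.mulLeft h')]
    refine Finset.sum_congr rfl fun g _ => ?_
    change χ (π g⁻¹) • gact F K h' (gact F K g a)
      = χ (π (h' * g)⁻¹) • gact F K (h' * g) a
    have h2 : π h' = 1 := by
      apply AlgEquiv.ext
      intro x
      apply (algebraMap L N).injective
      have h3 := AlgEquiv.restrictNormal_commutes h' L x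
      change algebraMap L N (h'.restrictNormal L x) = _
      rw [h3]
      exact h.commutes x
    rw [mul_inv_rev, map_mul π, map_inv π h', h2, inv_one, mul_one, map_mul]
    rfl
  have htr : LinearMap.trace ℂ _ A = (Nat.card π.ker : ℂ) * LinearMap.trace ℂ _ B :=
    trace_transfer (F.map L N (algebraMap L N)) (F.inj L N _) A B _ hAB hAinv
  have h4 : LinearMap.trace ℂ _ A = ∑ g : N ≃ₐ[K] N, χ (π g) *
      LinearMap.trace ℂ (F.X N) (gact F K g⁻¹) := by
    simp only [A, map_sum, map_smul, smul_eq_mul]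
    rw [← Equiv.sum_comp (Equiv.inv (N ≃ₐ[K] N))]
    refine Finset.sum_congr rfl fun g _ => ?_
    change χ (π (g⁻¹)⁻¹) * _ = _
    rw [inv_inv]
    rfl
  have h5 : LinearMap.trace ℂ _ B = ∑ g : L ≃ₐ[K] L, χ g *
      LinearMap.trace ℂ (F.X L) (gact F K g⁻¹) := by
    simp only [B, map_sum, map_smul, smul_eq_mul]
    rw [← Equiv.sum_comp (Equiv.inv (L ≃ₐ[K] L))]
    refine Finset.sum_congr rfl fun g _ => ?_
    change χ (g⁻¹)⁻¹ * _ = _
    rw [inv_inv]
    rfl
  rw [← h5]
  change _ * (∑ g : N ≃ₐ[K] N, χ (π g) * _) = _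
  rw [← h4, htr]
  push_cast
  field_simp

end infl

/-- **the multiplicity as an inductive invariant** -/
noncomputable def mulInv : ArtinInvariant (Multiplicative ℂ) where
  val K L _ _ _ _ _ _ χ := Multiplicative.ofAdd (mul F K χ)
  val_add K L _ _ _ _ _ _ χ χ' _ _ := by
    rw [mul_add']
    rfl
  val_infl K L N _ _ _ _ _ _ _ _ _ _ _ _ χ _ := by rw [mul_infl]
  val_ind K E L _ _ _ _ _ _ _ _ _ _ _ _ χ _ := by rw [mul_ind]

end Pool.Agent.J4.H58.BSD
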