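import Mathlib
import Pool.Agent.K4H74.SC.Core

/-!
# Artin twists of an elliptic curve: the definitions

The definitions of the Galois groups, of the characters and of `χ(p^n)` are in
`Pool.Agent.K4H74.SC.Core`.
-/

set_option autoImplicit false
set_option linter.unusedSectionVars false

namespace Pool.Agent.J4.H58.BSD

open NumberField Pool.Agent.K4H74.SK
open scoped TensorProduct

section points

variable (W : WeierstrassCurve ℤ)

/-- The group `E(L)` of the points over the field `L` of the elliptic curve `E` with the equation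
`W`. -/
def Pt (L : Type) [Field L] : Type := (W.baseChange L).toAffine.Point

open Classical in
noncomputable instance (L : Type) [Field L] : AddCommGroup (Pt W L) :=
  inferInstanceAs (AddCommGroup (W.baseChange L).toAffine.Point)

open Classical in
/-- The homomorphism `E(L) → E(N)` given by a homomorphism of fields `L → N`. -/
noncomputable def ptMap {L N : Type} [Field L] [Field N] (f : L →+* N) : Pt W L →+ Pt W N :=
  WeierstrassCurve.Affine.Point.map (W' := W.toAffine) f.toIntAlgHom

/-- The action of an endomorphism of the field `L` on the complex vector space `ℂ ⊗ E(L)`. -/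
noncomputable def actE {L : Type} [Field L] (f : L →+* L) :
    ℂ ⊗[ℤ] Pt W L →ₗ[ℂ] ℂ ⊗[ℤ] Pt W L := (ptMap W f).toIntLinearMap.baseChange ℂ

/-- `m` is the multiplicity of the character `χ` of the Galois group `G` of `L / K` in `ℂ ⊗ E(L)`:
`m = |G|⁻¹ ∑ χ(g⁻¹) tr(g)`. -/
def IsMult {E : Ext} (χ : G E → ℂ) (m : ℕ) : Prop :=
  (m : ℂ) = (Nat.card (G E) : ℂ)⁻¹ *
    ∑ᶠ g : G E, χ g⁻¹ * LinearMap.trace ℂ (ℂ ⊗[ℤ] Pt W E.L) (actE W (emb g))

end points

section series

variable (W : WeierstrassCurve ℤ)

/-- `a_p = p + 1 - #E(𝔽_p)`: `p` minus the number of the solutions modulo `p` of the equation. -/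
noncomputable def ap (p : ℕ) : ℤ :=
  p - Nat.card {v : ZMod p × ZMod p // (W.baseChange (ZMod p)).toAffine.Equation v.1 v.2}

/-- `α ^ j + β ^ j`, for the eigenvalues `α`, `β` of the Frobenius at `p`: the roots of
`x² - a_p x + p`. -/
noncomputable def frobTr (p : ℕ) : ℕ → ℤ
  | 0 => 2
  | 1 => ap W p
  | (j + 2) => ap W p * frobTr p (j + 1) - p * frobTr p j

open Classical in
/-- The trace of the `j`-th power of the Frobenius at `p` for a prime power `q = p ^ j` if `p` does
not divide the discriminant of `W`, and `0` otherwise. -/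
noncomputable def tr (q : ℕ) : ℤ :=
  if (q.minFac : ℤ) ∣ W.Δ then 0 else frobTr W q.minFac (q.factorization q.minFac)

/-- The term `tr(N(p)^n) χ(p^n) / (n N(p)^(n s))` of `log L(E, χ, s)`, for a character `χ` of the
Galois group of `L / K`; the Euler factors at the primes above the discriminant of `W` are removed
(at `s = 1` they are finite and not `0`). -/
noncomputable def eTerm (s : ℂ) {E : Ext} (χ : G E → ℂ) (x : Pr E × ℕ+) : ℂ :=
  tr W (Ideal.absNorm x.1.1 ^ (x.2 : ℕ)) * ((Ideal.absNorm x.1.1 ^ (x.2 : ℕ) : ℕ) : ℂ) ^ (-s)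
    * frobMean χ x.1.1 x.2 / (x.2 : ℕ)

/-- `f` is a meromorphic function on `ℂ` which is equal to `L(E, χ, s)^n` for `Re s > 3`. -/
def IsPower (n : ℕ) {E : Ext} (χ : G E → ℂ) (f : ℂ → ℂ) : Prop :=
  (∀ z, MeromorphicAt f z) ∧
    ∀ s : ℂ, 3 < s.re → ∃ l : ℂ, HasSum (eTerm W s χ) l ∧ f s = Complex.exp (n * l)

/-- The rank part of the conjecture for the twist of `E` by `χ`: `L(E, χ, s)` has a meromorphic
continuation to `ℂ`, and its order at `s = 1` is the multiplicity of `χ` in `ℂ ⊗ E(L)`. -/
def RankPart {E : Ext} (χ : G E → ℂ) : Prop :=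
  ∃ (f : ℂ → ℂ) (m : ℕ), IsPower W 1 χ f ∧ IsMult W χ m ∧ meromorphicOrderAt f 1 = m

end series

end Pool.Agent.J4.H58.BSD
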