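import Mathlib
import Pool.Agent.J4.H58.BSD.Defs
import Pool.Agent.J4.H58.BSD.Fun
import Pool.Agent.Q286.EQ.MW

/-!
# The Mordell-Weil groups as a functor with Galois descent
-/

set_option autoImplicit false
set_option linter.unusedSectionVars false

namespace Pool.Agent.J4.H58.BSD

open NumberField Pool.Agent.K4H74.ST Pool.Agent.K4H74.SC
open scoped TensorProduct

variable (W : WeierstrassCurve ℤ)

lemma ptMap_id (L : Type) [Field L] : ptMap W (RingHom.id L) = AddMonoidHom.id _ := by
  apply AddMonoidHom.ext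
  intro P
  change ptMap W (RingHom.id L) P = P
  cases P <;> rfl

lemma ptMap_comp {L N P : Type} [Field L] [Field N] [Field P] (f : L →+* N) (g : N →+* P) :
    ptMap W (g.comp f) = (ptMap W g).comp (ptMap W f) := by
  apply AddMonoidHom.ext
  intro Q
  change ptMap W (g.comp f) Q = ptMap W g (ptMap W f Q)
  cases Q <;> rfl

lemma ptMap_inj {L N : Type} [Field L] [Field N] (f : L →+* N) :
    Function.Injective (ptMap W f) := by
  classical
  exact WeierstrassCurve.Affine.Point.map_injective (W' := W.toAffine) f.toIntAlgHom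

variable {W}

/-- **Mordell-Weil** -/
theorem pt_fg (hΔ : W.Δ ≠ 0) (L : Type) [Field L] [NumberField L] : Module.Finite ℤ (Pt W L) := by
  classical
  have h1 : (W.baseChange L).Δ ≠ 0 := by
    rw [WeierstrassCurve.baseChange, WeierstrassCurve.map_Δ]
    simpa using hΔ
  have h2 := Pool.Agent.Q286.EQ.mordell_weil L (W.baseChange L) h1
  exact Module.Finite.iff_addGroup_fg.mpr h2

/-- the points which are fixed by the Galois group -/
theorem pt_desc {L N : Type} [Field L] [NumberField L] [Field N] [NumberField N] [Algebra L N]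
    [IsGalois L N] (P : Pt W N) (h : ∀ g : N ≃ₐ[L] N, ptMap W (g : N →+* N) P = P) :
    ∃ Q, ptMap W (algebraMap L N) Q = P := by
  classical
  have hfd : FiniteDimensional L N := Module.Finite.of_restrictScalars_finite ℚ L N
  have key : ∀ x : N, (∀ g : N ≃ₐ[L] N, g x = x) → ∃ a : L, algebraMap L N a = x := by
    intro x hx
    exact IntermediateField.mem_bot.mp ((IsGalois.mem_bot_iff_fixed x).mpr hx)
  cases P with
  | zero => exact ⟨0, map_zero _⟩
  | some x y hP =>
    have h1 : ∀ g : N ≃ₐ[L] N, g x = x ∧ g y = y := by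
      intro g
      have h2 := h g
      change WeierstrassCurve.Affine.Point.some _ _ _ = WeierstrassCurve.Affine.Point.some _ _ _ at h2
      rw [WeierstrassCurve.Affine.Point.some.injEq] at h2
      exact h2
    obtain ⟨a, rfl⟩ := key x fun g => (h1 g).1
    obtain ⟨b, rfl⟩ := key y fun g => (h1 g).2
    have hab : (W.baseChange L).toAffine.Nonsingular a b :=
      (WeierstrassCurve.Affine.baseChange_nonsingular (W := W.toAffine)
        (f := (algebraMap L N).toIntAlgHom) (hf := (algebraMap L N).injective) a b).mp hP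
    exact ⟨WeierstrassCurve.Affine.Point.some a b hab, rfl⟩

section x

variable (W)

/-- the maps -/
noncomputable def xmap {L N : Type} [Field L] [Field N] (f : L →+* N) :
    (ℂ ⊗[ℤ] Pt W L) →ₗ[ℂ] (ℂ ⊗[ℤ] Pt W N) := (ptMap W f).toIntLinearMap.baseChange ℂ

lemma xmap_tmul {L N : Type} [Field L] [Field N] (f : L →+* N) (z : ℂ) (P : Pt W L) :
    xmap W f (z ⊗ₜ P) = z ⊗ₜ ptMap W f P := rfl

lemma xmap_id (L : Type) [Field L] : xmap W (RingHom.id L) = LinearMap.id := by
  apply TensorProduct.AlgebraTensorModule.ext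
  intro z P
  rw [xmap_tmul, ptMap_id]
  rfl

lemma xmap_comp {L N P : Type} [Field L] [Field N] [Field P] (f : L →+* N) (g : N →+* P) :
    xmap W (g.comp f) = xmap W g ∘ₗ xmap W f := by
  apply TensorProduct.AlgebraTensorModule.ext
  intro z P
  rw [xmap_tmul, ptMap_comp, LinearMap.comp_apply, xmap_tmul, xmap_tmul]
  rfl

lemma xmap_inj {L N : Type} [Field L] [Field N] (f : L →+* N) : Function.Injective (xmap W f) :=
  Module.Flat.lTensor_preserves_injective_linearMap (M := ℂ)
      (ptMap W f).toIntLinearMap (ptMap_inj W f)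

variable {W}

lemma x_fd (hΔ : W.Δ ≠ 0) (L : Type) [Field L] [NumberField L] :
    FiniteDimensional ℂ (ℂ ⊗[ℤ] Pt W L) := by
  have := pt_fg hΔ L
  infer_instance

lemma x_desc {L N : Type} [Field L] [NumberField L] [Field N] [NumberField N] [Algebra L N]
    [IsGalois L N] (b : ℂ ⊗[ℤ] Pt W N) (hb : ∀ g : N ≃ₐ[L] N, xmap W (g : N →+* N) b = b) :
    ∃ a, xmap W (algebraMap L N) a = b := by
  classical
  have hfd : FiniteDimensional L N := Module.Finite.of_restrictScalars_finite ℚ L N
  have : Fintype (N ≃ₐ[L] N) := Fintype.ofFinite _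
  have hc : (Fintype.card (N ≃ₐ[L] N) : ℂ) ≠ 0 := by exact_mod_cast Fintype.card_ne_zero
  -- the sum over the group of any element comes from `L`
  have h1 : ∀ c : ℂ ⊗[ℤ] Pt W N, ∃ a : ℂ ⊗[ℤ] Pt W L,
      xmap W (algebraMap L N) a = ∑ h : N ≃ₐ[L] N, xmap W (h : N →+* N) c := by
    intro c
    induction c using TensorProduct.induction_on with
    | zero => exact ⟨0, by simp⟩
    | tmul z P =>
      have h2 : ∀ g : N ≃ₐ[L] N, ptMap W (g : N →+* N)
          (∑ h : N ≃ₐ[L] N, ptMap W (h : N →+* N) P)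
            = ∑ h : N ≃ₐ[L] N, ptMap W (h : N →+* N) P := by
        intro g
        rw [map_sum]
        conv_rhs => rw [← Equiv.sum_comp (Equiv.mulLeft g)]
        refine Finset.sum_congr rfl fun h _ => ?_
        have h3 := ptMap_comp W (h : N →+* N) (g : N →+* N)
        exact (DFunLike.congr_fun h3 P).symm
      obtain ⟨Q, hQ⟩ := pt_desc _ h2
      refine ⟨z ⊗ₜ Q, ?_⟩
      rw [xmap_tmul, hQ, TensorProduct.tmul_sum]
      rfl
    | add x y hx hy =>
      obtain ⟨a, ha⟩ := hx
      obtain ⟨a', ha'⟩ := hy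
      refine ⟨a + a', ?_⟩
      rw [map_add, ha, ha', ← Finset.sum_add_distrib]
      refine Finset.sum_congr rfl fun h _ => ?_
      rw [map_add]
  obtain ⟨a, ha⟩ := h1 b
  refine ⟨(Fintype.card (N ≃ₐ[L] N) : ℂ)⁻¹ • a, ?_⟩
  rw [map_smul, ha, Finset.sum_congr rfl (fun h _ => hb h), Finset.sum_const,
    Finset.card_univ, ← Nat.cast_smul_eq_nsmul ℂ, smul_smul, inv_mul_cancel₀ hc, one_smul]

/-- the functor `L ↦ ℂ ⊗ E(L)` -/
noncomputable def EF (hΔ : W.Δ ≠ 0) : GFun where
  X L _ _ := ℂ ⊗[ℤ] Pt W L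
  ag L _ _ := inferInstanceAs (AddCommGroup (ℂ ⊗[ℤ] Pt W L))
  mo L _ _ := inferInstanceAs (Module ℂ (ℂ ⊗[ℤ] Pt W L))
  fd L _ _ := x_fd hΔ L
  map L N _ _ _ _ f := xmap W f
  map_id L _ _ := xmap_id W L
  map_comp L N P _ _ _ _ _ _ f g := xmap_comp W f g
  inj L N _ _ _ _ f := xmap_inj W f
  desc L N _ _ _ _ _ _ b hb := x_desc b hb

end x

end Pool.Agent.J4.H58.BSD
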