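import Mathlib
import Pool.Agent.J4.H58.BSD.Defs
import Pool.Agent.J4.H58.DEL.Ser

/-!
# Convergence of the twisted L-series of an elliptic curve
-/

set_option autoImplicit false
set_option linter.unusedSectionVars false

namespace Pool.Agent.J4.H58.BSD

open NumberField Pool.Agent.K4H74 Pool.Agent.K4H74.ST Pool.Agent.K4H74.SK Pool.Agent.J4.H58.DEL

variable (W : WeierstrassCurve ℤ)

lemma card_pts_le {p : ℕ} (hp : p.Prime) :
    Nat.card {v : ZMod p × ZMod p // (W.baseChange (ZMod p)).toAffine.Equation v.1 v.2} ≤ 2 * p := by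
  classical
  have hf : Fact p.Prime := ⟨hp⟩
  rw [Nat.card_eq_fintype_card, Fintype.card_subtype]
  have h1 := Finset.card_eq_sum_card_fiberwise (s := Finset.univ.filter
    fun v : ZMod p × ZMod p => (W.baseChange (ZMod p)).toAffine.Equation v.1 v.2)
    (t := (Finset.univ : Finset (ZMod p))) (f := fun v => v.1) (fun v _ => Finset.mem_univ _)
  rw [h1]
  have h2 : ∀ x ∈ (Finset.univ : Finset (ZMod p)), ((Finset.univ.filter
      fun v : ZMod p × ZMod p => (W.baseChange (ZMod p)).toAffine.Equation v.1 v.2).filter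
        fun v => v.1 = x).card ≤ 2 := by
    intro x _
    by_contra hcon
    push Not at hcon
    obtain ⟨u, v, w, hu, hv, hw, huv, huw, hvw⟩ := Finset.two_lt_card_iff.mp hcon
    simp only [Finset.mem_filter, Finset.mem_univ, true_and] at hu hv hw
    obtain ⟨hu, rfl⟩ := hu
    obtain ⟨hv, hv1⟩ := hv
    obtain ⟨hw, hw1⟩ := hw
    rw [WeierstrassCurve.Affine.equation_iff] at hu hv hw
    rw [hv1] at hv
    rw [hw1] at hw
    have e1 : u.2 ≠ v.2 := fun h => huv (Prod.ext hv1.symm h)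
    have e2 : u.2 ≠ w.2 := fun h => huw (Prod.ext hw1.symm h)
    have e3 : v.2 ≠ w.2 := fun h => hvw (Prod.ext (hv1.trans hw1.symm) h)
    have k1 : (u.2 - v.2) * (u.2 + v.2 + (W.baseChange (ZMod p)).toAffine.a₁ * u.1
        + (W.baseChange (ZMod p)).toAffine.a₃) = 0 := by
      linear_combination hu - hv
    have k2 : (u.2 - w.2) * (u.2 + w.2 + (W.baseChange (ZMod p)).toAffine.a₁ * u.1
        + (W.baseChange (ZMod p)).toAffine.a₃) = 0 := by
      linear_combination hu - hw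
    have k3 := (mul_eq_zero.mp k1).resolve_left (sub_ne_zero.mpr e1)
    have k4 := (mul_eq_zero.mp k2).resolve_left (sub_ne_zero.mpr e2)
    apply e3
    linear_combination k3 - k4
  refine (Finset.sum_le_sum h2).trans ?_
  rw [Finset.sum_const, Finset.card_univ, ZMod.card, smul_eq_mul, mul_comm]

lemma abs_ap_le {p : ℕ} (hp : p.Prime) : |ap W p| ≤ p := by
  have h := card_pts_le W hp
  have h' : (Nat.card {v : ZMod p × ZMod p //
    (W.baseChange (ZMod p)).toAffine.Equation v.1 v.2} : ℤ) ≤ 2 * p := by exact_mod_cast h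
  rw [ap, abs_le]
  have h0 : (0 : ℤ) ≤ Nat.card {v : ZMod p × ZMod p //
    (W.baseChange (ZMod p)).toAffine.Equation v.1 v.2} := Nat.cast_nonneg _
  constructor <;> linarith

lemma abs_frobTr_le {p : ℕ} (hp : p.Prime) (j : ℕ) :
    |frobTr W p j| ≤ 2 * ((p : ℤ) + 1) ^ j := by
  have ha := abs_ap_le W hp
  have hp0 : (0 : ℤ) ≤ p := Nat.cast_nonneg _
  induction j using Nat.strong_induction_on with
  | _ j ih =>
    match j, ih with
    | 0, _ => simp [frobTr]
    | 1, _ =>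
      rw [frobTr, pow_one]
      linarith
    | (j + 2), ih =>
      have h1 := ih (j + 1) (by omega)
      have h2 := ih j (by omega)
      rw [frobTr]
      have h3 : |ap W p * frobTr W p (j + 1) - p * frobTr W p j|
          ≤ p * (2 * ((p : ℤ) + 1) ^ (j + 1)) + p * (2 * ((p : ℤ) + 1) ^ j) := by
        refine (abs_sub _ _).trans ?_
        rw [abs_mul, abs_mul, abs_of_nonneg hp0]
        exact add_le_add (mul_le_mul ha h1 (abs_nonneg _) hp0)
          (mul_le_mul_of_nonneg_left h2 hp0)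
      refine h3.trans ?_
      have h4 : (0 : ℤ) ≤ ((p : ℤ) + 1) ^ j := by positivity
      have h5 : ((p : ℤ) + 1) ^ (j + 1) = (p + 1) ^ j * (p + 1) := pow_succ _ _
      have h6 : ((p : ℤ) + 1) ^ (j + 2) = (p + 1) ^ j * (p + 1) ^ 2 := pow_add _ _ _
      rw [h5, h6]
      nlinarith

lemma abs_tr_le {q : ℕ} (hq : IsPrimePow q) : |tr W q| ≤ 2 * (q : ℤ) ^ 2 := by
  obtain ⟨p, j, hp, hj, rfl⟩ := (isPrimePow_nat_iff q).mp hq
  have hp2 : (2 : ℤ) ≤ p := by exact_mod_cast hp.two_le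
  rw [tr]
  split_ifs with h
  · rw [abs_zero]
    positivity
  · have h1 : (p ^ j).minFac = p := hp.pow_minFac hj.ne'
    have h2 : (p ^ j).factorization p = j := by
      rw [hp.factorization_pow, Finsupp.single_eq_same]
    rw [h1, h2]
    refine (abs_frobTr_le W hp j).trans ?_
    have h3 : ((p : ℤ) + 1) ^ j ≤ ((p : ℤ) ^ 2) ^ j := by
      apply pow_le_pow_left₀ (by positivity)
      nlinarith
    push_cast
    rw [← pow_mul, mul_comm j 2, pow_mul]
    linarith

/-- the weights -/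
noncomputable def ew (s : ℂ) (q : ℕ) : ℂ := tr W q * (q : ℂ) ^ (-s)

lemma ew_adm {s : ℂ} (hs : 3 < s.re) : Adm (ew W s) := by
  refine ⟨2, s.re - 3, by linarith, fun q hq => ?_⟩
  have hq0 : (0 : ℝ) < q := by exact_mod_cast hq.pos
  rw [ew, norm_mul, Complex.norm_natCast_cpow_of_pos hq.pos]
  have h1 : ‖((tr W q : ℤ) : ℂ)‖ ≤ 2 * (q : ℝ) ^ (2 : ℝ) := by
    rw [Complex.norm_intCast]
    have h2 := abs_tr_le W hq
    have h3 : ((|tr W q| : ℤ) : ℝ) ≤ ((2 * (q : ℤ) ^ 2 : ℤ) : ℝ) := by exact_mod_cast h2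
    push_cast at h3
    have h4 : (q : ℝ) ^ (2 : ℝ) = (q : ℝ) ^ 2 := by norm_cast
    rw [h4]
    exact h3
  refine (mul_le_mul_of_nonneg_right h1 (Real.rpow_nonneg hq0.le _)).trans (le_of_eq ?_)
  rw [mul_assoc, ← Real.rpow_add hq0]
  congr 2
  rw [Complex.neg_re]
  ring

lemma hasSum_eTerm {s : ℂ} {E : Ext} {χ : G E → ℂ} {l : ℂ} :
    HasSum (eTerm W s χ) l ↔ HasSum (wTerm E.K E.L χ (ew W s)) l := by
  have h1 : eTerm W s χ = wTerm E.K E.L χ (ew W s)
      ∘ ((prEquiv E).prodCongr (Equiv.refl ℕ+)) := by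
    funext x
    rw [eTerm, frobMean_eq]
    rfl
  rw [h1, Equiv.hasSum_iff]

lemma eTerm_summable {s : ℂ} (hs : 3 < s.re) {E : Ext} (χ : G E → ℂ) :
    ∃ l, HasSum (eTerm W s χ) l :=
  ⟨_, (hasSum_eTerm W).mpr (wTerm_summable χ (ew_adm W hs)).hasSum⟩

end Pool.Agent.J4.H58.BSD
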