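import Mathlib
import Pool.Agent.J4.H58.BSD.Pts
import Pool.Agent.J4.H58.BSD.Wt
import Pool.Agent.J4.H58.DEL.Pow

/-!
# The multiplicities and the L-series of the twists of elliptic curves together
-/

set_option autoImplicit false
set_option linter.unusedSectionVars false

namespace Pool.Agent.J4.H58.BSD

open NumberField Pool.Agent.K4H74 Pool.Agent.K4H74.ST Pool.Agent.K4H74.SK Pool.Agent.K4H34.AL
  Pool.Agent.J4.H58.DEL
open scoped TensorProduct

variable {W : WeierstrassCurve ℤ}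

lemma isMult_iff (hΔ : W.Δ ≠ 0) {E : Ext} {χ : G E → ℂ} {m : ℕ} :
    IsMult W χ m ↔ mul (EF hΔ) E.K (show (E.L ≃ₐ[E.K] E.L) → ℂ from χ) = m := by
  classical
  have hfin : Finite (G E) := inferInstanceAs (Finite (E.L ≃ₐ[E.K] E.L))
  have : Fintype (G E) := Fintype.ofFinite _
  have : Fintype (E.L ≃ₐ[E.K] E.L) := Fintype.ofFinite _
  have key : (Nat.card (G E) : ℂ)⁻¹ *
      ∑ᶠ g : G E, χ g⁻¹ * LinearMap.trace ℂ (ℂ ⊗[ℤ] Pt W E.L) (actE W (emb g))
      = mul (EF hΔ) E.K (show (E.L ≃ₐ[E.K] E.L) → ℂ from χ) := by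
    rw [mul]
    congr 1
    rw [← finsum_comp_equiv (Equiv.inv (E.L ≃ₐ[E.K] E.L))]
    refine finsum_congr fun g => ?_
    let g' : E.L ≃ₐ[E.K] E.L := g
    have h1 : (g'⁻¹)⁻¹ = g' := inv_inv _
    exact congrArg (fun z : E.L ≃ₐ[E.K] E.L => (show (E.L ≃ₐ[E.K] E.L) → ℂ from χ) (g'⁻¹)
      * LinearMap.trace ℂ ((EF hΔ).X E.L) (gact (EF hΔ) E.K z)) h1.symm
  rw [IsMult, key]
  exact eq_comm

lemma isMult_exists (hΔ : W.Δ ≠ 0) {E : Ext} {χ : G E → ℂ} (h : IsChr χ) :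
    ∃ m, IsMult W χ m := by
  obtain ⟨m, hm⟩ := mul_nat (EF hΔ) (K := E.K) (L := E.L) (isChr_iff.mp h)
  exact ⟨m, (isMult_iff hΔ).mpr hm⟩

lemma isMult_unique (hΔ : W.Δ ≠ 0) {E : Ext} {χ : G E → ℂ} {m m' : ℕ} (h : IsMult W χ m)
    (h' : IsMult W χ m') : m = m' := by
  have h1 := (isMult_iff hΔ).mp h
  rw [(isMult_iff hΔ).mp h'] at h1
  exact_mod_cast h1.symm

/-- the multiplicity of the trivial character is the rank -/
lemma isMult_one (hΔ : W.Δ ≠ 0) (K : Type) [Field K] [NumberField K] :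
    IsMult W (E := ⟨K, K⟩) (fun _ => 1) (Module.finrank ℤ (Pt W K)) := by
  rw [isMult_iff hΔ]
  change mul (EF hΔ) K (fun _ : K ≃ₐ[K] K => (1 : ℂ)) = _
  have hfd := x_fd hΔ K
  have : Fintype (K ≃ₐ[K] K) := Fintype.ofFinite _
  rw [mul, finsum_eq_sum_of_fintype]
  have h1 : ∀ g : K ≃ₐ[K] K, gact (EF hΔ) K g⁻¹ = LinearMap.id := by
    intro g
    have : g⁻¹ = 1 := Subsingleton.elim _ _
    rw [this, map_one]
    rfl
  have h2 : Fintype.card (K ≃ₐ[K] K) = 1 := Fintype.card_eq_one_iff.mpr ⟨1, fun g =>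
    Subsingleton.elim _ _⟩
  rw [Finset.sum_congr rfl (fun g _ => by rw [h1 g, one_mul]), Finset.sum_const,
    Finset.card_univ, h2, one_smul, Nat.card_eq_fintype_card, h2, Nat.cast_one, inv_one, one_mul]
  change LinearMap.trace ℂ (ℂ ⊗[ℤ] Pt W K) LinearMap.id = _
  rw [LinearMap.trace_id]
  have h3 := (TensorProduct.isBaseChange ℤ (Pt W K) ℂ).finrank_eq
  rw [h3]

/-- the curves -/
abbrev Cur : Type := {W : WeierstrassCurve ℤ // W.Δ ≠ 0}

/-- the L-series and the multiplicities -/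
noncomputable def eInv : ArtinInvariant (Multiplicative ({ω : ℕ → ℂ // Adm ω} → ℂ) ×
    (Cur → Multiplicative ℂ)) :=
  prodInv wInv (piInv fun W : Cur => mulInv (EF W.2))

section rel

variable {n r : ℕ} {y : Pair} {x : Fin r → Pair} {k : Fin r → ℤ}

/-- the relation between the logarithms -/
lemma rel_log (h : pval eInv y ^ n = ∏ i, pval eInv (x i) ^ k i) {s : ℂ} (hs : 3 < s.re) {l : ℂ}
    {l' : Fin r → ℂ} (hl : HasSum (eTerm W s y.2) l) (hl' : ∀ i, HasSum (eTerm W s (x i).2) (l' i)) :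
    n * l = ∑ i, k i * l' i := by
  let ev : (Multiplicative ({ω : ℕ → ℂ // Adm ω} → ℂ) × (Cur → Multiplicative ℂ))
      →* Multiplicative ℂ :=
    (AddMonoidHom.toMultiplicative (Pi.evalAddMonoidHom (fun _ : {ω : ℕ → ℂ // Adm ω} => ℂ)
      ⟨ew W s, ew_adm W hs⟩)).comp (MonoidHom.fst _ _)
  have h1 := congrArg (fun z => Multiplicative.toAdd (ev z)) h
  simp only [map_pow, map_prod, map_zpow, toAdd_pow, toAdd_prod, toAdd_zpow] at h1
  have h2 : ∀ z : Pair, ∀ l : ℂ, HasSum (eTerm W s z.2) l →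
      Multiplicative.toAdd (ev (pval eInv z)) = l :=
    fun z l hl => ((hasSum_eTerm W).mp hl).tsum_eq
  rw [h2 y l hl, Finset.sum_congr rfl (fun i _ => by rw [h2 (x i) _ (hl' i)])] at h1
  rw [nsmul_eq_mul] at h1
  rw [h1]
  exact Finset.sum_congr rfl fun i _ => by rw [zsmul_eq_mul]

/-- the relation between the multiplicities -/
lemma rel_mult (h : pval eInv y ^ n = ∏ i, pval eInv (x i) ^ k i) (hΔ : W.Δ ≠ 0) {m : ℕ}
    {m' : Fin r → ℕ} (hm : IsMult W y.2 m) (hm' : ∀ i, IsMult W (x i).2 (m' i)) :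
    (n : ℤ) * m = ∑ i, k i * m' i := by
  let ev : (Multiplicative ({ω : ℕ → ℂ // Adm ω} → ℂ) × (Cur → Multiplicative ℂ))
      →* Multiplicative ℂ :=
    (Pi.evalMonoidHom (fun _ : Cur => Multiplicative ℂ) ⟨W, hΔ⟩).comp (MonoidHom.snd _ _)
  have h1 := congrArg (fun z => Multiplicative.toAdd (ev z)) h
  simp only [map_pow, map_prod, map_zpow, toAdd_pow, toAdd_prod, toAdd_zpow] at h1
  have h2 : ∀ z : Pair, ∀ m : ℕ, IsMult W z.2 m →
      Multiplicative.toAdd (ev (pval eInv z)) = m :=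
    fun z m hm => (isMult_iff hΔ).mp hm
  rw [h2 y m hm, Finset.sum_congr rfl (fun i _ => by rw [h2 (x i) _ (hm' i)])] at h1
  rw [nsmul_eq_mul] at h1
  have h3 : (((n : ℤ) * m : ℤ) : ℂ) = ((∑ i, k i * m' i : ℤ) : ℂ) := by
    push_cast
    rw [h1]
    exact Finset.sum_congr rfl fun i _ => by rw [zsmul_eq_mul]
  exact_mod_cast h3

end rel

end Pool.Agent.J4.H58.BSD
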