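import Mathlib
import Pool.Agent.J4.H58.BSD.Mul

/-!
# Orders of meromorphic functions
-/

set_option autoImplicit false
set_option linter.unusedSectionVars false

namespace Pool.Agent.J4.H58.BSD

open Filter Topology Pool.Agent.K4H74.SK

/-- the identity theorem -/
lemma eq_near {F₁ F₂ : ℂ → ℂ} (h₁ : ∀ z, MeromorphicAt F₁ z) (h₂ : ∀ z, MeromorphicAt F₂ z)
    (h : ∀ s : ℂ, 3 < s.re → F₁ s = F₂ s) (z : ℂ) : F₁ =ᶠ[𝓝[≠] z] F₂ := by
  have h3 : MeromorphicOn (F₁ - F₂) Set.univ := fun z _ => (h₁ z).sub (h₂ z)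
  have h4 : meromorphicOrderAt (F₁ - F₂) 4 = ⊤ := by
    rw [meromorphicOrderAt_eq_top_iff]
    have h5 : ∀ᶠ s : ℂ in 𝓝 4, 3 < s.re := by
      apply (isOpen_lt continuous_const Complex.continuous_re).mem_nhds
      change (3 : ℝ) < (4 : ℂ).re
      norm_num
    filter_upwards [h5.filter_mono nhdsWithin_le_nhds] with s hs
    rw [Pi.sub_apply, h s hs, sub_self]
  have h5 : meromorphicOrderAt (F₁ - F₂) z = ⊤ := by
    by_contra hne
    exact h3.meromorphicOrderAt_ne_top_of_isPreconnected isPreconnected_univ (Set.mem_univ z)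
      (Set.mem_univ 4) hne h4
  rw [meromorphicOrderAt_eq_top_iff] at h5
  filter_upwards [h5] with s hs
  rw [Pi.sub_apply, sub_eq_zero] at hs
  exact hs

lemma order_eq {F₁ F₂ : ℂ → ℂ} (h₁ : ∀ z, MeromorphicAt F₁ z) (h₂ : ∀ z, MeromorphicAt F₂ z)
    (h : ∀ s : ℂ, 3 < s.re → F₁ s = F₂ s) (z : ℂ) :
    meromorphicOrderAt F₁ z = meromorphicOrderAt F₂ z :=
  meromorphicOrderAt_congr (eq_near h₁ h₂ h z)

/-- the product of the powers -/
noncomputable def prodPow {r : ℕ} (f : Fin r → ℂ → ℂ) (k : Fin r → ℤ) (s : Finset (Fin r)) :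
    ℂ → ℂ := ∏ i ∈ s, f i ^ k i

lemma prodPow_mero {r : ℕ} {f : Fin r → ℂ → ℂ} (k : Fin r → ℤ) (s : Finset (Fin r)) {z : ℂ}
    (hf : ∀ i, MeromorphicAt (f i) z) : MeromorphicAt (prodPow f k s) z := by
  classical
  induction s using Finset.induction_on with
  | empty =>
    rw [prodPow, Finset.prod_empty]
    exact MeromorphicAt.const 1 z
  | insert a s ha ih =>
    rw [prodPow, Finset.prod_insert ha]
    exact ((hf a).zpow (k a)).mul ih

lemma prodPow_order {r : ℕ} {f : Fin r → ℂ → ℂ} {k : Fin r → ℤ} {m : Fin r → ℤ}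
    (s : Finset (Fin r)) {z : ℂ} (hf : ∀ i, MeromorphicAt (f i) z)
    (hm : ∀ i, meromorphicOrderAt (f i) z = m i) :
    meromorphicOrderAt (prodPow f k s) z = ((∑ i ∈ s, k i * m i : ℤ) : WithTop ℤ) := by
  classical
  induction s using Finset.induction_on with
  | empty =>
    rw [prodPow, Finset.prod_empty, Finset.sum_empty]
    have h1 : meromorphicOrderAt (1 : ℂ → ℂ) z = 0 := by
      have h2 : AnalyticAt ℂ (1 : ℂ → ℂ) z := analyticAt_const
      rw [h2.meromorphicOrderAt_eq, h2.analyticOrderAt_eq_zero.mpr one_ne_zero]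
      rfl
    rw [h1]
    rfl
  | insert a s ha ih =>
    rw [prodPow, Finset.prod_insert ha, Finset.sum_insert ha]
    change meromorphicOrderAt (f a ^ k a * prodPow f k s) z = _
    rw [meromorphicOrderAt_mul ((hf a).zpow (k a)) (prodPow_mero k s hf), ih,
      meromorphicOrderAt_zpow (hf a), hm a]
    push_cast
    rfl

variable {W : WeierstrassCurve ℤ}

/-- **the orders.** -/
theorem order_rel {E : Ext} {χ : G E → ℂ} {n r : ℕ} {x : Fin r → Pair} {k : Fin r → ℤ}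
    (hlog : ∀ s : ℂ, 3 < s.re → ∀ (l : ℂ) (l' : Fin r → ℂ), HasSum (eTerm W s χ) l →
      (∀ i, HasSum (eTerm W s (x i).2) (l' i)) → n * l = ∑ i, k i * l' i)
    {m' : Fin r → ℤ} {f : Fin r → ℂ → ℂ}
    (hf : ∀ i, IsPower W 1 (x i).2 (f i)) (hm : ∀ i, meromorphicOrderAt (f i) 1 = m' i) :
    ∃ F, IsPower W n χ F ∧ meromorphicOrderAt F 1 = ((∑ i, k i * m' i : ℤ) : WithTop ℤ) := by
  refine ⟨prodPow f k Finset.univ, ⟨fun z => prodPow_mero k _ fun i => (hf i).1 z,
    fun s hs => ?_⟩, prodPow_order _ (fun i => (hf i).1 1) hm⟩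
  obtain ⟨l, hl⟩ := eTerm_summable W hs χ
  refine ⟨l, hl, ?_⟩
  choose l' hl' h2 using fun i => (hf i).2 s hs
  rw [hlog s hs l l' hl hl', Complex.exp_sum, prodPow, Finset.prod_apply]
  refine Finset.prod_congr rfl fun i _ => ?_
  rw [Pi.pow_apply, h2 i, Nat.cast_one, one_mul, Complex.exp_int_mul]

/-- the order of the L-function if some power of it is known -/
theorem order_of_power {E : Ext} {χ : G E → ℂ} {n : ℕ} (hn : 0 < n) {c : ℤ} {F f : ℂ → ℂ}
    (hF : IsPower W n χ F) (hFm : meromorphicOrderAt F 1 = (c : WithTop ℤ))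
    (hf : IsPower W 1 χ f) : ∃ a : ℤ, meromorphicOrderAt f 1 = a ∧ n * a = c := by
  have h1 : ∀ s : ℂ, 3 < s.re → (f ^ (n : ℤ)) s = F s := by
    intro s hs
    obtain ⟨l, hl, h2⟩ := hf.2 s hs
    obtain ⟨l', hl', h3⟩ := hF.2 s hs
    have h4 := hl.unique hl'
    subst h4
    rw [Pi.pow_apply, h2, h3, Nat.cast_one, one_mul, ← Complex.exp_int_mul, Int.cast_natCast]
  have h2 := order_eq (fun z => (hf.1 z).zpow n) hF.1 h1 1
  rw [meromorphicOrderAt_zpow (hf.1 1), hFm] at h2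
  have hn' : (n : WithTop ℤ) ≠ 0 := by exact_mod_cast hn.ne'
  cases h5 : meromorphicOrderAt f 1 with
  | top =>
    rw [h5] at h2
    exfalso
    have h6 : ((n : ℤ) : WithTop ℤ) * ⊤ = ⊤ := by
      apply WithTop.mul_top
      exact_mod_cast hn.ne'
    rw [h6] at h2
    exact WithTop.coe_ne_top h2.symm
  | coe a =>
    rw [h5] at h2
    refine ⟨a, rfl, ?_⟩
    have h6 : ((n * a : ℤ) : WithTop ℤ) = (c : WithTop ℤ) := by
      rw [← h2]
      push_cast
      rfl
    exact_mod_cast h6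

/-- the order is finite -/
theorem order_finite {E : Ext} {χ : G E → ℂ} {n : ℕ} {f : ℂ → ℂ} (hf : IsPower W n χ f) :
    meromorphicOrderAt f 1 ≠ ⊤ := by
  have h3 : MeromorphicOn f Set.univ := fun z _ => hf.1 z
  refine h3.meromorphicOrderAt_ne_top_of_isPreconnected isPreconnected_univ (Set.mem_univ 4)
      (Set.mem_univ 1) fun h4 => ?_
  rw [meromorphicOrderAt_eq_top_iff] at h4
  have h5 : ∀ᶠ s : ℂ in 𝓝 4, 3 < s.re := by
    apply (isOpen_lt continuous_const Complex.continuous_re).mem_nhds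
    change (3 : ℝ) < (4 : ℂ).re
    norm_num
  have h6 : ∀ᶠ s : ℂ in 𝓝[≠] 4, False := by
    filter_upwards [h5.filter_mono nhdsWithin_le_nhds, h4] with s hs h0
    obtain ⟨l, -, h7⟩ := hf.2 s hs
    rw [h7] at h0
    exact Complex.exp_ne_zero _ h0
  exact (Filter.eventually_false_iff_eq_bot.mp h6 ▸ (inferInstance : (𝓝[≠] (4 : ℂ)).NeBot)).ne rfl

end Pool.Agent.J4.H58.BSD
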